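import Pool.Agent.N162.GP.Stm

/-!
# Project GP (helper162), part GE (helper152): the canonical forms vanish on curves of low degree
-/

set_option autoImplicit false

open FF Pool.Agent.W603.LV Pool.Agent.Y184.NT Pool.Agent.N162.BC IntermediateField MvPolynomial
open Pool.Agent.W602.GT
open Pool.Agent.N162.HN (Crv Good At mu pr act pt Prj)
open Pool.Agent.N162.GP

namespace Pool.Agent.N152.GP

theorem ge_ (hP : Pool.Agent.N162.GP.StGEP) (hT : Pool.Agent.N162.GP.StGET) :
    Pool.Agent.N162.GP.StGE := by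
  intro M n m t K Ω E _ _ _ _ _ _ _ _ _ _ x ω₀ hx0 hgen hK hΩ hadj φ hgood hfin z e hz he i₀ δ
    hδ0 hδ1 hδ
  classical
  have hcΩ : CharZero Ω := charZero_of_injective_algebraMap (algebraMap ℂ Ω).injective
  have hessK : Algebra.EssFiniteType ℂ K := by
    rw [← IntermediateField.fg_top_iff]
    exact ⟨Finset.univ.image x, by
      rw [Finset.coe_image, Finset.coe_univ, Set.image_univ, hgen]⟩
  have hX : Transcendental Ω (φ (x 1)) := hgood.tr
  have hX0 : φ (x 1) ≠ 0 := by
    intro h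
    rw [h] at hX
    exact hX isAlgebraic_zero
  refine hT M m Ω E (fun j => φ (x j)) hgood hfin _ ?_ ?_
  · intro v a hv
    show Ge v 1 ((φ (x 1) - algebraMap Ω E a) *
      ((Matrix.of fun i j => δ i (φ (z j))).det * φ (ω₀ e)))
    have hv' : Ge v 1 (φ (x 1) - algebraMap Ω E a) := hv
    have hne : φ (x 1) - algebraMap Ω E a ≠ 0 := by
      intro h
      rw [sub_eq_zero.1 h] at hX
      exact hX (isAlgebraic_algebraMap a)
    have hpos : 0 < v.ord (φ (x 1) - algebraMap Ω E a) := by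
      rcases hv' with h | h
      · exact absurd h hne
      · omega
    have hD : ∀ i, ∃ D : Derivation ℂ Ω Ω, i ≠ i₀ →
        ∀ a, δ i (algebraMap Ω E a) = algebraMap Ω E (D a) := by
      intro i
      by_cases hi : i = i₀
      · exact ⟨0, fun h => absurd hi h⟩
      · obtain ⟨D, h⟩ := (hδ i hi).2
        exact ⟨D, fun _ => h⟩
    choose D hD using hD
    let u : Fin n → E := fun i => if i = i₀ then 0 else algebraMap Ω E (D i a)
    have hu0 : u i₀ = 0 := if_pos rfl
    have hu1 : ∀ i, i ≠ i₀ → u i = algebraMap Ω E (D i a) := fun i hi => if_neg hi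
    have key := hP n t K Ω E hK hΩ z e hz he _ (hadj.reg (X 0 ^ m) (isHomogeneous_X_pow 0 m)) φ v
      (φ (x 1) - algebraMap Ω E a) hpos i₀ (fun i => δ i + u i • δ i₀) (by
        intro b
        show δ i₀ (algebraMap Ω E b) + u i₀ • δ i₀ (algebraMap Ω E b) = 0
        rw [hδ0, smul_zero, add_zero]) (by
        show δ i₀ (φ (x 1) - algebraMap Ω E a) + u i₀ • δ i₀ (φ (x 1) - algebraMap Ω E a) = 1
        rw [hu0, zero_smul, add_zero, map_sub, hδ0, hδ1, sub_zero]) (by
        intro i hi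
        refine ⟨?_, D i, ?_⟩
        · show δ i (φ (x 1) - algebraMap Ω E a) + u i • δ i₀ (φ (x 1) - algebraMap Ω E a) = 0
          rw [map_sub, map_sub, hδ0, hδ1, (hδ i hi).1, hD i hi, hu1 i hi, sub_zero, smul_eq_mul,
            mul_one, zero_sub, neg_add_cancel]
        · intro b
          show δ i (algebraMap Ω E b) + u i • δ i₀ (algebraMap Ω E b) = algebraMap Ω E (D i b)
          rw [hδ0, smul_zero, add_zero, hD i hi])
    have hdet : (Matrix.of fun i j => (fun i => δ i + u i • δ i₀ : Fin n → Derivation ℂ E E) i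
        (φ (z j))).det = (Matrix.of fun i j => δ i (φ (z j))).det :=
      Matrix.det_eq_of_forall_row_eq_smul_add_const u i₀ hu0 fun i j => rfl
    rw [hdet] at key
    have e1 : aeval x (X 0 ^ m : MvPolynomial (Fin (M + 2)) ℂ) * ω₀ e = ω₀ e := by
      rw [map_pow, aeval_X, hx0, one_pow, one_mul]
    have key2 : Ge v 1 ((φ (x 1) - algebraMap Ω E a) *
      ((Matrix.of fun i j => δ i (φ (z j))).det *
        φ (aeval x (X 0 ^ m : MvPolynomial (Fin (M + 2)) ℂ) * ω₀ e))) := key
    rwa [e1] at key2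
  · intro v hv
    have hv' : v.ord (φ (x 1)) < 0 := hv
    have hpos : 0 < v.ord (φ (x 1))⁻¹ := by
      rw [v.ord_inv]
      omega
    have hinv : ∀ i, δ i (φ (x 1))⁻¹ = -(φ (x 1))⁻¹ ^ 2 • δ i (φ (x 1)) := fun i =>
      Derivation.leibniz_inv _ _
    let w : Fin n → E := fun i => if i = i₀ then -(φ (x 1)) ^ 2 else 1
    have hw0 : w i₀ = -(φ (x 1)) ^ 2 := if_pos rfl
    have hw1 : ∀ i, i ≠ i₀ → w i = 1 := fun i hi => if_neg hi
    have key := hP n t K Ω E hK hΩ z e hz he _ (hadj.reg (X 1 ^ m) (isHomogeneous_X_pow 1 m)) φ v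
      (φ (x 1))⁻¹ hpos i₀ (fun i => w i • δ i) (by
        intro b
        show w i₀ • δ i₀ (algebraMap Ω E b) = 0
        rw [hδ0, smul_zero]) (by
        show w i₀ • δ i₀ (φ (x 1))⁻¹ = 1
        rw [hinv, hδ1, hw0, smul_eq_mul, smul_eq_mul]
        field_simp) (by
        intro i hi
        refine ⟨?_, ?_⟩
        · show w i • δ i (φ (x 1))⁻¹ = 0
          rw [hinv, (hδ i hi).1, smul_zero, smul_zero]
        · obtain ⟨D, hD⟩ := (hδ i hi).2
          refine ⟨D, fun b => ?_⟩
          show w i • δ i (algebraMap Ω E b) = algebraMap Ω E (D b)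
          rw [hw1 i hi, one_smul, hD])
    have hdet : (Matrix.of fun i j => (fun i => w i • δ i : Fin n → Derivation ℂ E E) i
        (φ (z j))).det = -(φ (x 1)) ^ 2 * (Matrix.of fun i j => δ i (φ (z j))).det := by
      have h1 := Matrix.det_mul_column w (Matrix.of fun i j => δ i (φ (z j)))
      have h2 : ∏ i, w i = -(φ (x 1)) ^ 2 := by
        rw [Finset.prod_eq_single i₀ (fun i _ hi => hw1 i hi)
          (fun h => absurd (Finset.mem_univ _) h), hw0]
      rw [h2] at h1
      exact h1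
    rw [hdet] at key
    have key2 : Ge v 1 ((φ (x 1))⁻¹ * (-(φ (x 1)) ^ 2 *
      (Matrix.of fun i j => δ i (φ (z j))).det *
        φ (aeval x (X 1 ^ m : MvPolynomial (Fin (M + 2)) ℂ) * ω₀ e))) := key
    rw [map_pow, aeval_X, map_mul, map_pow] at key2
    have e1 : (φ (x 1)) ^ (m + 1) * ((Matrix.of fun i j => δ i (φ (z j))).det * φ (ω₀ e)) =
        -((φ (x 1))⁻¹ * (-(φ (x 1)) ^ 2 *
      (Matrix.of fun i j => δ i (φ (z j))).det * ((φ (x 1)) ^ m * φ (ω₀ e)))) := by
      field_simp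
      ring
    show Ge v 1 ((φ (x 1)) ^ (m + 1) *
      ((Matrix.of fun i j => δ i (φ (z j))).det * φ (ω₀ e)))
    rw [e1]
    exact key2.neg

end Pool.Agent.N152.GP
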